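import Mathlib

/-!
# Polynomials with `A ^ i + B ^ j` constant

Mason-Stothers (`Polynomial.flt_catalan`).
-/

set_option autoImplicit false

noncomputable section

namespace Pool.Agent.CYT

open Polynomial

/-- `A ^ i + B ^ j = κ ≠ 0` implies that `A` and `B` are constant, if `1 / i + 1 / j < 1`. -/
theorem const_of {K : Type*} [Field K] [CharZero K] {i j : ℕ} (hi : 0 < i) (hj : 0 < j)
    (hij : i + j + 1 ≤ i * j) {A B : K[X]} {κ : K} (hκ : κ ≠ 0)
    (h : A ^ i + B ^ j = C κ) : A.natDegree = 0 ∧ B.natDegree = 0 := by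
  by_cases hA : A = 0
  · subst hA
    rw [zero_pow hi.ne', zero_add] at h
    have h1 := congrArg natDegree h
    rw [natDegree_pow, natDegree_C] at h1
    exact ⟨natDegree_zero, (Nat.mul_eq_zero.1 h1).resolve_left hj.ne'⟩
  by_cases hB : B = 0
  · subst hB
    rw [zero_pow hj.ne', add_zero] at h
    have h1 := congrArg natDegree h
    rw [natDegree_pow, natDegree_C] at h1
    exact ⟨(Nat.mul_eq_zero.1 h1).resolve_left hi.ne', natDegree_zero⟩
  have hcop : IsCoprime A B := by
    have h1 : C κ⁻¹ * C κ = (1 : K[X]) := by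
      rw [← C_mul, inv_mul_cancel₀ hκ, C_1]
    refine ⟨C κ⁻¹ * A ^ (i - 1), C κ⁻¹ * B ^ (j - 1), ?_⟩
    have e1 : A ^ (i - 1) * A = A ^ i := by
      rw [← pow_succ, Nat.sub_add_cancel hi]
    have e2 : B ^ (j - 1) * B = B ^ j := by
      rw [← pow_succ, Nat.sub_add_cancel hj]
    calc C κ⁻¹ * A ^ (i - 1) * A + C κ⁻¹ * B ^ (j - 1) * B
        = C κ⁻¹ * (A ^ (i - 1) * A + B ^ (j - 1) * B) := by ring
      _ = 1 := by rw [e1, e2, h, h1]
  have hr : 0 < i * j := Nat.mul_pos hi hj
  have hineq : j * (i * j) + i * j * i + i * j ≤ i * j * (i * j) := by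
    calc j * (i * j) + i * j * i + i * j = i * j * (i + j + 1) := by ring
      _ ≤ i * j * (i * j) := Nat.mul_le_mul_left _ hij
  have key := Polynomial.flt_catalan (k := K) hi.ne' hj.ne' hr.ne' hineq
    (by exact_mod_cast hi.ne') (by exact_mod_cast hj.ne') (by exact_mod_cast hr.ne')
    hA hB (one_ne_zero (α := K[X])) hcop (u := 1) (v := 1) (w := -κ) one_ne_zero one_ne_zero
    (neg_ne_zero.2 hκ) (by rw [C_1, one_mul, one_mul, one_pow, mul_one, h, C_neg, add_neg_cancel])
  exact ⟨key.1, key.2.1⟩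

end Pool.Agent.CYT
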